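import Pool.Agent.Q10.CR.Main

/-!
# The asymptotic capacity of the range of nearest neighbour walks on `ℤ⁴` is not real-analytic

For a finite set `S` of steps in `ℤ^d` let `Δ_S` be the set of the probability measures with support
exactly `S`, given by their weights `p s`, `s ∈ S`, and let `𝔠(p)` be the asymptotic capacity of the
range of the random walk with the step distribution `p`, the almost sure limit of
`Cap(R_n) / n`. We show that for `d = 4` and `S = {± e_1, …, ± e_4}` the function `𝔠` is not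
real-analytic at the simple random walk. In fact, `𝔠` vanishes for the simple random walk, and for the
walk with the weights `1/8 ± t/2` in the first direction and `1/8` in the other ones it is at least
`κ t ^ α`, for every `α > 0` with a constant `κ > 0`; so it is not even Hölder continuous.

The lower bound is the second moment bound `𝔠 ≥ 1 / (8 ∑ G(x)²)` together with
`∑ G_t(x)² = O(t ^ (-α))` (Parseval); the value `0` follows from `G_0(x) ≥ c / (1 + |x|²)`.
-/

set_option autoImplicit false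

namespace Pool.Agent.Results.MP_b733c5_pr.NotAnalytic

open Finset Filter Topology MeasureTheory ProbabilityTheory

/-- `Δ_S`: the weights `p s > 0`, `s ∈ S`, with sum `1`. -/
def Simplex {d : ℕ} (S : Finset (Fin d → ℤ)) : Set (S → ℝ) := {p | (∀ s, 0 < p s) ∧ ∑ s, p s = 1}

/-- `ξ 0, ξ 1, …` are independent random vectors with the law `∑ p s δ_s`. -/
structure Steps {d : ℕ} {Ω : Type} [MeasurableSpace Ω] (S : Finset (Fin d → ℤ)) (p : S → ℝ)
    (P : Measure Ω) (ξ : ℕ → Ω → (Fin d → ℤ)) : Prop where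
  meas : ∀ i, Measurable (ξ i)
  indep : iIndepFun ξ P
  law : ∀ i, P.map (ξ i) = ∑ s : S, ENNReal.ofReal (p s) • Measure.dirac (s : Fin d → ℤ)

/-- The position after `n` steps of the walk which starts at `x`. -/
def pos {d : ℕ} {Ω : Type} (ξ : ℕ → Ω → (Fin d → ℤ)) (x : Fin d → ℤ) (n : ℕ) (ω : Ω) : Fin d → ℤ :=
  x + ∑ i ∈ range n, ξ i ω

/-- `Cap(A)`: the sum over `x ∈ A` of the probability that the walk started at `x` does not visit
`A` at the times `m ≥ 1`. -/
noncomputable def Cap {d : ℕ} {Ω : Type} [MeasurableSpace Ω] (P : Measure Ω)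
    (ξ : ℕ → Ω → (Fin d → ℤ)) (A : Finset (Fin d → ℤ)) : ℝ :=
  ∑ x ∈ A, P.real {ω | ∀ m, 1 ≤ m → pos ξ x m ω ∉ A}

/-- The range `{X_0, …, X_n}` of the walk started at `0`. -/
def Rng {d : ℕ} {Ω : Type} (ξ : ℕ → Ω → (Fin d → ℤ)) (n : ℕ) (ω : Ω) : Finset (Fin d → ℤ) :=
  (range (n + 1)).image (fun m => pos ξ 0 m ω)

/-- `v` is the asymptotic capacity of the range of the walk with the weights `p`: almost surely
`Cap(R_n) / n` tends to `v` (for every realisation of the steps). -/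
def IsAsympCap {d : ℕ} (S : Finset (Fin d → ℤ)) (p : S → ℝ) (v : ℝ) : Prop :=
  ∀ (Ω : Type) [MeasurableSpace Ω] (P : Measure Ω) [IsProbabilityMeasure P]
    (ξ : ℕ → Ω → (Fin d → ℤ)), Steps S p P ξ →
    ∀ᵐ ω ∂P, Tendsto (fun n : ℕ => Cap P ξ (Rng ξ n ω) / n) atTop (𝓝 v)

/-- The function `c` on `Δ_S` is real-analytic at `p`: near `p` it is the restriction of a function
which is analytic at `p`. -/
def RealAnalyticAt {d : ℕ} (S : Finset (Fin d → ℤ)) (c : (S → ℝ) → ℝ) (p : S → ℝ) : Prop :=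
  ∃ F : (S → ℝ) → ℝ, AnalyticAt ℝ F p ∧ ∀ᶠ q in 𝓝[Simplex S] p, F q = c q

/-- the nearest neighbours of the origin of `ℤ^d` -/
def NN (d : ℕ) : Finset (Fin d → ℤ) :=
  univ.image (fun j => Pi.single j 1) ∪ univ.image (fun j => -Pi.single j 1)

/-- the weights `1/8 + t/2` for `e_1`, `1/8 - t/2` for `-e_1` and `1/8` for the other steps -/
noncomputable def drift (t : ℝ) (s : NN 4) : ℝ := 1 / 8 + t / 2 * ((s : Fin 4 → ℤ) 0 : ℝ)

theorem NN_eq : NN 4 = Q10.CR.S4 := by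
  decide

open Q10.CR

theorem isWalk {Ω : Type} [MeasurableSpace Ω] {P : Measure Ω} {ξ : ℕ → Ω → (Fin 4 → ℤ)} {t : ℝ}
    (h : Steps (NN 4) (drift t) P ξ) : IsWalk S4 (wt t) P ξ where
  meas := h.meas
  indep := h.indep
  law i := by
    rw [h.law i, ← NN_eq, ← Finset.sum_coe_sort (NN 4)]
    rfl

theorem steps {Ω : Type} [MeasurableSpace Ω] {P : Measure Ω} {ξ : ℕ → Ω → (Fin 4 → ℤ)} {t : ℝ}
    (h : IsWalk S4 (wt t) P ξ) : Steps (NN 4) (drift t) P ξ where
  meas := h.meas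
  indep := h.indep
  law i := by
    rw [h.law i, ← NN_eq, ← Finset.sum_coe_sort (NN 4)]
    rfl

theorem cap_eq {Ω : Type} [MeasurableSpace Ω] {P : Measure Ω} [IsProbabilityMeasure P]
    {ξ : ℕ → Ω → (Fin 4 → ℤ)} {t : ℝ} (h0 : 0 ≤ t) (h1 : t ≤ 1 / 4)
    (h : IsWalk S4 (wt t) P ξ) (n : ℕ) (ω : Ω) :
    Cap P ξ (Rng ξ n ω) = capR S4 (wt t) n (fun i => ξ i ω) := by
  have e : Rng ξ n ω = (range (n + 1)).image (ps (fun i => ξ i ω)) := by
    unfold Rng pos ps
    simp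
  unfold Cap capR cp
  rw [e]
  refine sum_congr rfl fun x _ => ?_
  exact esc_eq (wts_wt h0 h1) h _ x

/-- a realisation of the walk -/
theorem exists_walk {t : ℝ} (h0 : 0 ≤ t) (h1 : t ≤ 1 / 4) :
    ∃ (Ω : Type) (_ : MeasurableSpace Ω) (P : Measure Ω) (_ : IsProbabilityMeasure P)
      (ξ : ℕ → Ω → (Fin 4 → ℤ)), IsWalk S4 (wt t) P ξ := by
  have hw := wts_wt h0 h1
  set μ : Measure (Fin 4 → ℤ) := ∑ s ∈ S4, ENNReal.ofReal (wt t s) • Measure.dirac s with hμ
  have hprob : IsProbabilityMeasure μ := by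
    constructor
    rw [hμ, Measure.finset_sum_apply]
    simp only [Measure.smul_apply, measure_univ, smul_eq_mul, mul_one]
    rw [← ENNReal.ofReal_sum_of_nonneg hw.nn, hw.one, ENNReal.ofReal_one]
  refine ⟨ℕ → (Fin 4 → ℤ), inferInstance, Measure.infinitePi (fun _ => μ), inferInstance,
    fun i a => a i, ?_, ?_, ?_⟩
  · exact fun i => measurable_pi_apply i
  · exact iIndepFun_infinitePi (X := fun _ : ℕ => (id : (Fin 4 → ℤ) → (Fin 4 → ℤ)))
      fun _ => measurable_id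
  · intro i
    exact Measure.infinitePi_map_eval (fun _ : ℕ => μ) i

/-- **The asymptotic capacity of the range is not real-analytic.** Let `d = 4` and
`S = {± e_1, …, ± e_4}`, and let `c(p)` be the asymptotic capacity of the range for all `p ∈ Δ_S`.
(1) The uniform weights `1/8` (simple random walk) are in `Δ_S`, and there `c` is `0`.
(2) For `0 < t < 1/4` the weights `drift t` are in `Δ_S`, and for every `α > 0` there is `κ > 0` such
that `c (drift t) ≥ κ t ^ α` for all these `t`.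
(3) `c` is not real-analytic at `drift 0`. -/
theorem result (c : (NN 4 → ℝ) → ℝ) (hc : ∀ p ∈ Simplex (NN 4), IsAsympCap (NN 4) p (c p)) :
    ((drift 0 = fun _ => 1 / 8) ∧ drift 0 ∈ Simplex (NN 4) ∧ c (drift 0) = 0) ∧
    (∀ t : ℝ, 0 < t → t < 1 / 4 → drift t ∈ Simplex (NN 4)) ∧
    (∀ α : ℝ, 0 < α → ∃ κ : ℝ, 0 < κ ∧ ∀ t : ℝ, 0 < t → t < 1 / 4 → κ * t ^ α ≤ c (drift t)) ∧
    ¬ RealAnalyticAt (NN 4) c (drift 0) := by
  have hmem : ∀ t : ℝ, 0 ≤ t → t < 1 / 4 → drift t ∈ Simplex (NN 4) := by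
    intro t h0 h1
    refine ⟨fun s => ?_, ?_⟩
    · have h2 : ∀ s ∈ S4, (-1 : ℤ) ≤ s 0 := by decide
      have h3 : (-1 : ℝ) ≤ ((s : Fin 4 → ℤ) 0 : ℤ) := by
        have h5 : (s : Fin 4 → ℤ) ∈ S4 := by
          rw [← NN_eq]
          exact s.2
        exact_mod_cast h2 _ h5
      unfold drift
      nlinarith
    · have h2 := (wts_wt h0 h1.le).one
      rw [← NN_eq, ← Finset.sum_coe_sort (NN 4)] at h2
      exact h2
  have h8 : drift 0 = fun _ => 1 / 8 := by
    funext s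
    unfold drift
    simp
  have hlim : ∀ t : ℝ, 0 ≤ t → t < 1 / 4 → ∀ (Ω : Type) [MeasurableSpace Ω] (P : Measure Ω)
      [IsProbabilityMeasure P] (ξ : ℕ → Ω → (Fin 4 → ℤ)), IsWalk S4 (wt t) P ξ →
      ∀ᵐ ω ∂P, Tendsto (fun n : ℕ => capR S4 (wt t) n (fun i => ξ i ω) / n) atTop
        (𝓝 (c (drift t))) := by
    intro t h0 h1 Ω _ P _ ξ h
    filter_upwards [hc _ (hmem t h0 h1) Ω P ξ (steps h)] with ω hω
    refine hω.congr fun n => ?_
    rw [cap_eq h0 h1.le h]
  have hzero : c (drift 0) = 0 := by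
    obtain ⟨Ω, _, P, _, ξ, h⟩ := exists_walk (t := 0) le_rfl (by norm_num)
    exact limit_zero h (hlim 0 le_rfl (by norm_num) Ω P ξ h)
  have hlow : ∀ α : ℝ, 0 < α → ∃ κ : ℝ, 0 < κ ∧ ∀ t : ℝ, 0 < t → t < 1 / 4 →
      κ * t ^ α ≤ c (drift t) := by
    intro α hα
    obtain ⟨C, hC, hK⟩ := green_sq (δ := min (α / 2) (2 / 5)) (lt_min (by linarith) (by norm_num))
      (min_le_right _ _)
    set δ := min (α / 2) (2 / 5) with hδ
    refine ⟨1 / (8 * C), by positivity, fun t h0 h1 => ?_⟩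
    obtain ⟨hG, hQ⟩ := hK t h0 h1.le
    obtain ⟨Ω, _, P, _, ξ, h⟩ := exists_walk h0.le h1.le
    have hT : 0 < t ^ (-(2 * δ)) := Real.rpow_pos_of_pos h0 _
    have h2 := limit_lower (wts_wt h0.le h1.le) h hG (K := C * t ^ (-(2 * δ))) (by positivity) hQ
      (hlim t h0.le h1 Ω P ξ h)
    refine le_trans ?_ h2
    have h3 : t ^ α ≤ t ^ (2 * δ) := by
      refine Real.rpow_le_rpow_of_exponent_ge h0 (by linarith) ?_
      have := min_le_left (α / 2) (2 / 5)
      rw [← hδ] at this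
      linarith
    have h4 : 1 / (8 * (C * t ^ (-(2 * δ)))) = 1 / (8 * C) * t ^ (2 * δ) := by
      rw [Real.rpow_neg h0.le]
      field_simp
    rw [h4]
    exact mul_le_mul_of_nonneg_left h3 (by positivity)
  refine ⟨⟨h8, hmem 0 le_rfl (by norm_num), hzero⟩, fun t h0 h1 => hmem t h0.le h1, hlow, ?_⟩
  rintro ⟨F, hF, hFc⟩
  have hF0 : F (drift 0) = 0 := by
    rw [hFc.self_of_nhdsWithin (hmem 0 le_rfl (by norm_num)), hzero]
  have hO := hF.differentiableAt.hasFDerivAt.isBigO_sub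
  obtain ⟨C, hC⟩ := hO.bound
  have hnorm : ∀ t : ℝ, 0 ≤ t → ‖drift t - drift 0‖ ≤ t := by
    intro t h0
    rw [pi_norm_le_iff_of_nonneg h0]
    intro s
    have h2 : ∀ s ∈ S4, |s 0| ≤ 1 := by decide
    have h3 : |(((s : Fin 4 → ℤ) 0 : ℤ) : ℝ)| ≤ 1 := by
      have h5 : (s : Fin 4 → ℤ) ∈ S4 := by
        rw [← NN_eq]
        exact s.2
      exact_mod_cast h2 _ h5
    have e : (drift t - drift 0) s = t / 2 * (((s : Fin 4 → ℤ) 0 : ℤ) : ℝ) := by
      show drift t s - drift 0 s = _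
      unfold drift
      ring
    rw [e, Real.norm_eq_abs, abs_mul, abs_of_nonneg (by linarith : (0 : ℝ) ≤ t / 2)]
    nlinarith
  have htend : Tendsto (fun t : ℝ => drift t) (𝓝[>] 0) (𝓝 (drift 0)) := by
    rw [tendsto_iff_norm_sub_tendsto_zero]
    refine squeeze_zero' (Eventually.of_forall fun t => norm_nonneg _) (g := fun t => t) ?_ ?_
    · filter_upwards [self_mem_nhdsWithin] with t ht
      exact hnorm t (le_of_lt ht)
    · exact tendsto_nhdsWithin_of_tendsto_nhds tendsto_id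
  have hpos : ∀ᶠ t : ℝ in 𝓝[>] 0, t < 1 / 4 :=
    nhdsWithin_le_nhds (Iio_mem_nhds (by norm_num))
  have hin : ∀ᶠ t : ℝ in 𝓝[>] 0, F (drift t) = c (drift t) := by
    have h1 : Tendsto (fun t : ℝ => drift t) (𝓝[>] 0) (𝓝[Simplex (NN 4)] (drift 0)) := by
      refine tendsto_nhdsWithin_iff.2 ⟨htend, ?_⟩
      filter_upwards [self_mem_nhdsWithin, hpos] with t ht ht1
      exact hmem t (le_of_lt ht) ht1
    exact h1.eventually hFc
  obtain ⟨κ, hκ, hκ2⟩ := hlow (1 / 2) (by norm_num)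
  have hbound : ∀ᶠ t : ℝ in 𝓝[>] 0, κ * t ^ (1 / 2 : ℝ) ≤ |C| * t := by
    filter_upwards [htend.eventually hC, hin, hpos, self_mem_nhdsWithin] with t h1 h2 h3 h4
    have h5 := hκ2 t h4 h3
    have h6 := hnorm t (le_of_lt h4)
    rw [hF0, sub_zero, h2] at h1
    have h7 : c (drift t) ≤ ‖c (drift t)‖ := Real.le_norm_self _
    calc κ * t ^ (1 / 2 : ℝ) ≤ c (drift t) := h5
      _ ≤ ‖c (drift t)‖ := h7
      _ ≤ C * ‖drift t - drift 0‖ := h1
      _ ≤ |C| * ‖drift t - drift 0‖ := mul_le_mul_of_nonneg_right (le_abs_self C) (norm_nonneg _)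
      _ ≤ |C| * t := mul_le_mul_of_nonneg_left h6 (abs_nonneg C)
  have hsmall : ∀ᶠ t : ℝ in 𝓝[>] 0, (|C| + 1) * Real.sqrt t < κ := by
    have h1 : Tendsto (fun t : ℝ => (|C| + 1) * Real.sqrt t) (𝓝[>] 0) (𝓝 ((|C| + 1) * Real.sqrt 0)) :=
      tendsto_nhdsWithin_of_tendsto_nhds ((Real.continuous_sqrt.tendsto 0).const_mul _)
    rw [Real.sqrt_zero, mul_zero] at h1
    exact h1.eventually (Iio_mem_nhds hκ)
  obtain ⟨t, h1, h2, h3⟩ := (hbound.and (hsmall.and self_mem_nhdsWithin)).exists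
  have h3' : 0 < t := h3
  rw [← Real.sqrt_eq_rpow] at h1
  have h4 : 0 < Real.sqrt t := Real.sqrt_pos.2 h3'
  have h5 : Real.sqrt t * Real.sqrt t = t := Real.mul_self_sqrt h3'.le
  have h6 : κ * Real.sqrt t ≤ (|C| * Real.sqrt t) * Real.sqrt t := by
    rw [mul_assoc, h5]
    exact h1
  have h7 := le_of_mul_le_mul_right h6 h4
  nlinarith

end Pool.Agent.Results.MP_b733c5_pr.NotAnalytic
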